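import Pool.Agent.helper52.FS.SpecD

/-!
# MP_07c750_an, project FS, row CHF: the function of one open set
-/

open scoped MatrixGroups ContDiff Topology UpperHalfPlane ComplexConjugate
open UpperHalfPlane MeasureTheory Filter Set

set_option autoImplicit false

namespace Pool.Agent.FS

open Pool.Agent.RS
open Pool.Agent.MS (bq BB BA SF pf)
open Pool.Agent.EN (XG MG mkX mkM fl pr)

noncomputable section

theorem CHF_ent (i j : Fin 2) : Continuous (fun g : SL(2, ℝ) => g.1 i j) :=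
  (continuous_apply j).comp ((continuous_apply i).comp continuous_subtype_val)

/-- small boxes are contained in a given neighbourhood of one -/
theorem CHF_nb (V : Set SL(2, ℝ)) (hV : V ∈ 𝓝 (1 : SL(2, ℝ))) : ∃ δ : ℝ, 0 < δ ∧ ∀ h : SL(2, ℝ), bq δ δ δ h → h ∈ V := by
  by_contra hcon
  push Not at hcon
  have h1 : ∀ n : ℕ, ∃ h : SL(2, ℝ), bq (1 / ((n : ℝ) + 1)) (1 / ((n : ℝ) + 1)) (1 / ((n : ℝ) + 1)) h ∧ h ∉ V := fun n => hcon _ (by positivity)
  choose h hb hn using h1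
  have e00 : (1 : SL(2, ℝ)).1 0 0 = 1 := by simp
  have e01 : (1 : SL(2, ℝ)).1 0 1 = 0 := by simp
  have e10 : (1 : SL(2, ℝ)).1 1 0 = 0 := by simp
  have e11 : (1 : SL(2, ℝ)).1 1 1 = 1 := by simp
  have hz : Tendsto (fun n : ℕ => 1 / ((n : ℝ) + 1)) atTop (𝓝 0) := tendsto_one_div_add_atTop_nhds_zero_nat
  have key : ∀ (f : ℕ → ℝ) (l : ℝ), (∀ n, |f n - l| ≤ 1 / ((n : ℝ) + 1)) → Tendsto f atTop (𝓝 l) := by
    intro f l hf
    rw [tendsto_iff_dist_tendsto_zero]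
    refine squeeze_zero (fun n => dist_nonneg) (fun n => ?_) hz
    rw [Real.dist_eq]
    exact hf n
  have ht : Tendsto h atTop (𝓝 (1 : SL(2, ℝ))) := by
    have hind : Topology.IsInducing (fun g : SL(2, ℝ) => g.1) := ⟨rfl⟩
    refine hind.tendsto_nhds_iff.2 ?_
    refine tendsto_pi_nhds.2 fun i => tendsto_pi_nhds.2 fun j => ?_
    refine key _ _ fun n => ?_
    obtain ⟨b1, b2, b3, b4⟩ := hb n
    fin_cases i <;> fin_cases j
    · show |(h n).1 0 0 - (1 : SL(2, ℝ)).1 0 0| ≤ _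
      rw [e00]
      exact b1
    · show |(h n).1 0 1 - (1 : SL(2, ℝ)).1 0 1| ≤ _
      rw [e01, sub_zero]
      exact b3
    · show |(h n).1 1 0 - (1 : SL(2, ℝ)).1 1 0| ≤ _
      rw [e10, sub_zero]
      exact b4
    · show |(h n).1 1 1 - (1 : SL(2, ℝ)).1 1 1| ≤ _
      rw [e11]
      exact b2
  obtain ⟨n, hn'⟩ := (ht.eventually hV).exists
  exact hn n hn'

theorem CHF_mat (h : SL(2, ℝ)) (t v : ℝ) :
    (h * (aM t * lM v)).1 0 0 = h.1 0 0 * Real.exp (t / 2) + h.1 0 1 * (Real.exp (-(t / 2)) * v) ∧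
    (h * (aM t * lM v)).1 0 1 = h.1 0 1 * Real.exp (-(t / 2)) ∧
    (h * (aM t * lM v)).1 1 0 = h.1 1 0 * Real.exp (t / 2) + h.1 1 1 * (Real.exp (-(t / 2)) * v) ∧
    (h * (aM t * lM v)).1 1 1 = h.1 1 1 * Real.exp (-(t / 2)) := by
  have e : ∀ i j, (h * (aM t * lM v)).1 i j = (h.1 * ((aM t).1 * (lM v).1)) i j := fun _ _ => rfl
  refine ⟨?_, ?_, ?_, ?_⟩ <;> rw [e] <;> simp [aM, lM, Matrix.mul_apply, Fin.sum_univ_two]

/-- numbers -/
theorem CHF_num (a t : ℝ) (ha : 0 < a) (ha1 : a ≤ 1 / 100) (ht : |t| ≤ a / 100) : |Real.exp (t / 2) - 1| ≤ a / 100 := by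
  have h1 : |t / 2| ≤ 1 := by
    rw [abs_div, abs_two]
    linarith [abs_nonneg t]
  have h2 := Real.abs_exp_sub_one_le h1
  rw [abs_div, abs_two] at h2
  linarith

/-- the box -/
theorem CHF_box (a t v : ℝ) (h : SL(2, ℝ)) (ha : 0 < a) (ha1 : a ≤ 1 / 100) (ht : |t| ≤ a / 100) (hv : |v| ≤ a / 100) (h00 : |h.1 0 0 - 1| ≤ a / 100)
    (h11 : |h.1 1 1 - 1| ≤ a / 100) (h01 : |h.1 0 1| ≤ a / 100) (h10 : |h.1 1 0| ≤ a / 100) : bq a a a (h * (aM t * lM v)) := by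
  obtain ⟨m1, m2, m3, m4⟩ := CHF_mat h t v
  obtain ⟨E, hE⟩ : ∃ E, E = Real.exp (t / 2) := ⟨_, rfl⟩
  obtain ⟨D, hD⟩ : ∃ D, D = Real.exp (-(t / 2)) := ⟨_, rfl⟩
  have n1 : |E - 1| ≤ a / 100 := by rw [hE]; exact CHF_num a t ha ha1 ht
  have n2 : |D - 1| ≤ a / 100 := by
    rw [hD]
    have := CHF_num a (-t) ha ha1 (by rw [abs_neg]; exact ht)
    rwa [neg_div] at this
  rw [← hE, ← hD] at m1 m3
  rw [← hD] at m2 m4
  have nE : |E| ≤ 2 := by
    have := abs_le.1 n1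
    rw [abs_le]
    constructor <;> linarith
  have nD : |D| ≤ 2 := by
    have := abs_le.1 n2
    rw [abs_le]
    constructor <;> linarith
  have nDv : |D * v| ≤ a / 50 := by
    rw [abs_mul]
    calc |D| * |v| ≤ 2 * (a / 100) := mul_le_mul nD hv (abs_nonneg _) (by norm_num)
      _ = a / 50 := by ring
  have hp : (0 : ℝ) ≤ a / 100 := by positivity
  have hs : a / 100 * (a / 50) ≤ a / 100 := by nlinarith
  unfold bq
  rw [m1, m2, m3, m4]
  refine ⟨?_, ?_, ?_, ?_⟩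
  · have e : h.1 0 0 * E + h.1 0 1 * (D * v) - 1 = (h.1 0 0 - 1) * E + (E - 1) + h.1 0 1 * (D * v) := by ring
    rw [e]
    have k1 : |(h.1 0 0 - 1) * E| ≤ a / 100 * 2 := by rw [abs_mul]; exact mul_le_mul h00 nE (abs_nonneg _) hp
    have k2 : |h.1 0 1 * (D * v)| ≤ a / 100 * (a / 50) := by rw [abs_mul]; exact mul_le_mul h01 nDv (abs_nonneg _) hp
    have := abs_add_le ((h.1 0 0 - 1) * E + (E - 1)) (h.1 0 1 * (D * v))
    have := abs_add_le ((h.1 0 0 - 1) * E) (E - 1)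
    linarith
  · have e : h.1 1 1 * D - 1 = (h.1 1 1 - 1) * D + (D - 1) := by ring
    rw [e]
    have k1 : |(h.1 1 1 - 1) * D| ≤ a / 100 * 2 := by rw [abs_mul]; exact mul_le_mul h11 nD (abs_nonneg _) hp
    have := abs_add_le ((h.1 1 1 - 1) * D) (D - 1)
    linarith
  · have k1 : |h.1 0 1 * D| ≤ a / 100 * 2 := by rw [abs_mul]; exact mul_le_mul h01 nD (abs_nonneg _) hp
    linarith
  · have e : h.1 1 0 * E + h.1 1 1 * (D * v) = h.1 1 0 * E + (h.1 1 1 - 1) * (D * v) + D * v := by ring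
    rw [e]
    have k1 : |h.1 1 0 * E| ≤ a / 100 * 2 := by rw [abs_mul]; exact mul_le_mul h10 nE (abs_nonneg _) hp
    have k2 : |(h.1 1 1 - 1) * (D * v)| ≤ a / 100 * (a / 50) := by rw [abs_mul]; exact mul_le_mul h11 nDv (abs_nonneg _) hp
    have := abs_add_le (h.1 1 0 * E + (h.1 1 1 - 1) * (D * v)) (D * v)
    have := abs_add_le (h.1 1 0 * E) ((h.1 1 1 - 1) * (D * v))
    linarith

/-- the product over finitely many translations -/
theorem CHF_prod (hSFP : IR.SFP_stmt) (Γ : Subgroup SL(2, ℝ)) (C0 : ℝ) (hC0 : 0 < C0) (ψ ψa ψn ψl : SL(2, ℝ) → ℝ) (hψ : SF Γ ψ ψa ψn ψl)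
    (h01 : ∀ g, 0 ≤ ψ g ∧ ψ g ≤ 1) (hn : ∀ g, |ψn g| ≤ C0) (hl : ∀ g, |ψl g| ≤ C0) (L : List ℝ) (hL : ∀ s ∈ L, |s| ≤ 4) :
    ∃ (C : ℝ) (χ χa χn χl : SL(2, ℝ) → ℝ), 1 ≤ C ∧ SF Γ χ χa χn χl ∧ (∀ g, 0 ≤ χ g ∧ χ g ≤ 1) ∧ (∀ g, |χn g| ≤ C) ∧ (∀ g, |χl g| ≤ C) ∧
      (∀ g, (∀ s ∈ L, ψ (g * aM s) = 0) → χ g = 1) ∧ ∀ g, (∃ s ∈ L, ψ (g * aM s) = 1) → χ g = 0 := by
  induction L with
  | nil =>
    refine ⟨1, fun _ => 1, fun _ => 0, fun _ => 0, fun _ => 0, le_rfl, ?_, fun g => ⟨zero_le_one, le_rfl⟩, fun g => ?_, fun g => ?_, fun g _ => rfl, fun g hg => ?_⟩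
    · exact ⟨⟨continuous_const, fun _ _ => rfl⟩, ⟨continuous_const, fun _ _ => rfl⟩, ⟨continuous_const, fun _ _ => rfl⟩, ⟨continuous_const, fun _ _ => rfl⟩,
        fun g => hasDerivAt_const _ _, fun g => hasDerivAt_const _ _, fun g => hasDerivAt_const _ _⟩
    · show |(0 : ℝ)| ≤ 1
      rw [abs_zero]
      exact zero_le_one
    · show |(0 : ℝ)| ≤ 1
      rw [abs_zero]
      exact zero_le_one
    · obtain ⟨s, hs, -⟩ := hg
      exact absurd hs (List.not_mem_nil)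
  | cons s L ih =>
    obtain ⟨C, χ, χa, χn, χl, hC, hS, hχ, hχn, hχl, h1, h0⟩ := ih fun t ht => hL t (List.mem_cons_of_mem _ ht)
    have hs : |s| ≤ 4 := hL s List.mem_cons_self
    have hs2 := abs_le.1 hs
    have hS1 := (hSFP Γ ψ ψa ψn ψl hψ).2.2 s
    have hS2 := (hSFP Γ _ _ _ _ hS1).2.1
    have hS3 := (hSFP Γ _ _ _ _ hS2).1 χ χa χn χl hS
    have hE1 : Real.exp (-s) ≤ Real.exp 4 := Real.exp_le_exp.2 (by linarith)
    have hE2 : Real.exp s ≤ Real.exp 4 := Real.exp_le_exp.2 (by linarith)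
    have hCC : 0 ≤ Real.exp 4 * C0 := by positivity
    refine ⟨Real.exp 4 * C0 + C, _, _, _, _, by linarith, hS3, fun g => ?_, fun g => ?_, fun g => ?_, fun g hg => ?_, fun g hg => ?_⟩
    · obtain ⟨a1, a2⟩ := h01 (g * aM s)
      obtain ⟨b1, b2⟩ := hχ g
      constructor
      · exact mul_nonneg (by linarith) b1
      · show (1 - ψ (g * aM s)) * χ g ≤ 1
        nlinarith
    · obtain ⟨a1, a2⟩ := h01 (g * aM s)
      obtain ⟨b1, b2⟩ := hχ g
      show |-(Real.exp (-s) * ψn (g * aM s)) * χ g + (1 - ψ (g * aM s)) * χn g| ≤ _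
      have e1 : |-(Real.exp (-s) * ψn (g * aM s)) * χ g| ≤ Real.exp 4 * C0 := by
        rw [abs_mul, abs_neg, abs_mul, abs_of_pos (Real.exp_pos _), abs_of_nonneg b1]
        have : Real.exp (-s) * |ψn (g * aM s)| ≤ Real.exp 4 * C0 := mul_le_mul hE1 (hn _) (abs_nonneg _) (Real.exp_pos _).le
        have h3 : 0 ≤ Real.exp (-s) * |ψn (g * aM s)| := by positivity
        nlinarith
      have e2 : |(1 - ψ (g * aM s)) * χn g| ≤ C := by
        rw [abs_mul, abs_of_nonneg (by linarith)]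
        have := hχn g
        have h3 := abs_nonneg (χn g)
        nlinarith
      exact (abs_add_le _ _).trans (add_le_add e1 e2)
    · obtain ⟨a1, a2⟩ := h01 (g * aM s)
      obtain ⟨b1, b2⟩ := hχ g
      show |-(Real.exp s * ψl (g * aM s)) * χ g + (1 - ψ (g * aM s)) * χl g| ≤ _
      have e1 : |-(Real.exp s * ψl (g * aM s)) * χ g| ≤ Real.exp 4 * C0 := by
        rw [abs_mul, abs_neg, abs_mul, abs_of_pos (Real.exp_pos _), abs_of_nonneg b1]
        have : Real.exp s * |ψl (g * aM s)| ≤ Real.exp 4 * C0 := mul_le_mul hE2 (hl _) (abs_nonneg _) (Real.exp_pos _).le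
        have h3 : 0 ≤ Real.exp s * |ψl (g * aM s)| := by positivity
        nlinarith
      have e2 : |(1 - ψ (g * aM s)) * χl g| ≤ C := by
        rw [abs_mul, abs_of_nonneg (by linarith)]
        have := hχl g
        have h3 := abs_nonneg (χl g)
        nlinarith
      exact (abs_add_le _ _).trans (add_le_add e1 e2)
    · show (1 - ψ (g * aM s)) * χ g = 1
      rw [hg s List.mem_cons_self, h1 g fun t ht => hg t (List.mem_cons_of_mem _ ht)]
      norm_num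
    · show (1 - ψ (g * aM s)) * χ g = 0
      obtain ⟨t, ht, h2⟩ := hg
      rcases List.mem_cons.1 ht with h3 | h3
      · rw [← h3, h2, sub_self, zero_mul]
      · rw [h0 g ⟨t, h3, h2⟩, mul_zero]

theorem CHF_proof (hBXM : MS.BXM_stmt) (hSFP : IR.SFP_stmt) (hGLC : RS.GLC_stmt) (hXFL : EN.XFL_stmt) : CHF_stmt := by
  intro Γ O hΓ hO hOn
  obtain ⟨-, -, hmc, hmo, hms, -, -, -, -, -, hmeq, -⟩ := hXFL Γ
  obtain ⟨-, -, -, -, -, -, -, -, -, -, haadd, -, -, -, -, -, -, -, hla, -⟩ := hGLC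
  obtain ⟨x0, hx0⟩ := hOn
  obtain ⟨y, rfl⟩ := hms x0
  obtain ⟨a0, ha0, ha0', hBX⟩ := hBXM Γ hΓ
  have hV : {h : SL(2, ℝ) | mkX Γ (y * h) ∈ O} ∈ 𝓝 (1 : SL(2, ℝ)) := by
    refine (hO.preimage (hmc.comp (continuous_const_mul y))).mem_nhds ?_
    show mkX Γ (y * 1) ∈ O
    rw [mul_one]
    exact hx0
  obtain ⟨δ, hδ, hδV⟩ := CHF_nb _ hV
  obtain ⟨a, ha⟩ : ∃ a : ℝ, a = min a0 (δ / 16) := ⟨_, rfl⟩
  have hapos : 0 < a := by rw [ha]; exact lt_min ha0 (by positivity)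
  have haa0 : a ≤ a0 := by rw [ha]; exact min_le_left _ _
  have haδ : 16 * a ≤ δ := by
    have : a ≤ δ / 16 := by rw [ha]; exact min_le_right _ _
    linarith
  have ha100 : a ≤ 1 / 100 := haa0.trans ha0'
  obtain ⟨C0, hC0, hBXa⟩ := hBX a hapos haa0
  obtain ⟨ψ, ψa, ψn, ψl, hψ, h01, hψn, hψl, hψ1, hψ0⟩ := hBXa 0 {y} le_rfl
  rw [Real.exp_zero, mul_one] at hψl
  have hexp0 : Real.exp (-(0 : ℝ)) = 1 := by rw [neg_zero, Real.exp_zero]
  rw [hexp0, mul_one] at hψ1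
  rw [hexp0, mul_one] at hψ0
  obtain ⟨M, hM⟩ : ∃ M : ℤ, M = ⌊400 / a⌋ := ⟨_, rfl⟩
  have hMr : (M : ℝ) ≤ 400 / a := by rw [hM]; exact Int.floor_le _
  obtain ⟨L, hLdef⟩ : ∃ L : List ℝ, L = (Finset.Icc (-M) M).toList.map (fun j : ℤ => (j : ℝ) * (a / 100)) := ⟨_, rfl⟩
  have hL : ∀ s ∈ L, |s| ≤ 4 := by
    intro s hs
    rw [hLdef, List.mem_map] at hs
    obtain ⟨j, hj, rfl⟩ := hs
    rw [Finset.mem_toList, Finset.mem_Icc] at hj
    have h1 : |(j : ℝ)| ≤ M := by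
      rw [abs_le]
      constructor
      · have := hj.1
        exact_mod_cast this
      · exact_mod_cast hj.2
    rw [abs_mul, abs_of_pos (by positivity : (0 : ℝ) < a / 100)]
    calc |(j : ℝ)| * (a / 100) ≤ 400 / a * (a / 100) := mul_le_mul_of_nonneg_right (h1.trans hMr) (by positivity)
      _ = 4 := by field_simp; norm_num
  obtain ⟨C, χ, χa, χn, χl, hC, hS, hχ, hχn, hχl, h1, h0⟩ := CHF_prod hSFP Γ C0 hC0 ψ ψa ψn ψl hψ h01 hψn hψl L hL
  obtain ⟨B, hB⟩ : ∃ B : Set SL(2, ℝ), B = {h | |h.1 0 0 - 1| < a / 100 ∧ |h.1 1 1 - 1| < a / 100 ∧ |h.1 0 1| < a / 100 ∧ |h.1 1 0| < a / 100} := ⟨_, rfl⟩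
  have hBo : IsOpen B := by
    rw [hB]
    refine IsOpen.and (isOpen_lt ((CHF_ent 0 0).sub continuous_const).abs continuous_const) (IsOpen.and (isOpen_lt ((CHF_ent 1 1).sub continuous_const).abs continuous_const) (IsOpen.and (isOpen_lt (CHF_ent 0 1).abs continuous_const) (isOpen_lt (CHF_ent 1 0).abs continuous_const)))
  have hB1 : (1 : SL(2, ℝ)) ∈ B := by
    rw [hB]
    have hp : 0 < a / 100 := by positivity
    refine ⟨?_, ?_, ?_, ?_⟩ <;> simpa using hp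
  refine ⟨mkX Γ '' {g | y⁻¹ * g ∈ B}, a / 10000, C, χ, χa, χn, χl, hmo _ (hBo.preimage (continuous_const_mul y⁻¹)), ⟨mkX Γ y, y, ?_, rfl⟩, by positivity, hC, hS, hχ, hχn, hχl, fun g hg => h1 g fun s hs => ?_, ?_⟩
  · show y⁻¹ * y ∈ B
    rw [inv_mul_cancel]
    exact hB1
  · by_contra hne
    obtain ⟨y', hy', γ, hγ⟩ := hψ0 _ hne
    rw [Finset.mem_singleton] at hy'
    rw [hy'] at hγ
    have h2 := hδV _ (show bq δ δ δ (y⁻¹ * (γ : SL(2, ℝ)) * (g * aM s)) from ⟨hγ.1.trans haδ, hγ.2.1.trans haδ, hγ.2.2.1.trans haδ, hγ.2.2.2.trans haδ⟩)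
    have h3 : mkX Γ (y * (y⁻¹ * (γ : SL(2, ℝ)) * (g * aM s))) ∈ O := h2
    have h4 : mkX Γ (g * aM s) = mkX Γ (y * (y⁻¹ * (γ : SL(2, ℝ)) * (g * aM s))) := by
      rw [hmeq]
      refine ⟨γ, ?_⟩
      group
    rw [← h4] at h3
    exact hg s (hL s hs) h3
  · rintro k s o ⟨g, hg, hgk⟩ hs ho
    rw [hmeq] at hgk
    obtain ⟨γ, hγ⟩ := hgk
    have hs2 := abs_le.1 hs
    have hpa : 0 < a / 100 := by positivity
    refine h0 _ ⟨((-⌊s / (a / 100)⌋ : ℤ) : ℝ) * (a / 100), ?_, ?_⟩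
    · rw [hLdef, List.mem_map]
      refine ⟨-⌊s / (a / 100)⌋, ?_, rfl⟩
      rw [Finset.mem_toList, Finset.mem_Icc]
      have h5 : |s / (a / 100)| ≤ 300 / a := by
        rw [abs_div, abs_of_pos hpa, div_le_div_iff₀ hpa hapos]
        nlinarith
      have h6 := abs_le.1 h5
      have h7 : (100 : ℝ) ≤ 1 / a := by
        rw [le_div_iff₀ hapos]
        linarith
      have h8 : (400 : ℝ) / a = 300 / a + 100 * (1 / a) := by
        field_simp
        norm_num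
      have h9 : |(⌊s / (a / 100)⌋ : ℝ)| ≤ 400 / a - 1 := by
        rw [abs_le]
        constructor
        · have := Int.lt_floor_add_one (s / (a / 100))
          linarith
        · have := Int.floor_le (s / (a / 100))
          linarith
      have h10 := abs_le.1 h9
      have h11 : 400 / a < M + 1 := by rw [hM]; exact Int.lt_floor_add_one _
      constructor
      · have : ((-M : ℤ) : ℝ) ≤ ((-⌊s / (a / 100)⌋ : ℤ) : ℝ) := by
          push_cast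
          linarith
        exact_mod_cast this
      · have : ((-⌊s / (a / 100)⌋ : ℤ) : ℝ) ≤ (M : ℝ) := by
          push_cast
          linarith
        exact_mod_cast this
    · refine hψ1 _ ⟨y, Finset.mem_singleton_self _, γ⁻¹, ?_⟩
      obtain ⟨s', hs'⟩ : ∃ s' : ℝ, s' = ((-⌊s / (a / 100)⌋ : ℤ) : ℝ) * (a / 100) := ⟨_, rfl⟩
      rw [← hs']
      have hcoe : ((γ⁻¹ : Γ) : SL(2, ℝ)) = (γ : SL(2, ℝ))⁻¹ := rfl
      have e : y⁻¹ * ((γ⁻¹ : Γ) : SL(2, ℝ)) * (k * aM s * lM o * aM s') = (y⁻¹ * g) * (aM (s + s') * lM (Real.exp s' * o)) := by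
        rw [hcoe, ← hγ, haadd, mul_assoc (aM s) (aM s'), ← hla]
        group
      rw [e]
      have hg' : |(y⁻¹ * g).1 0 0 - 1| < a / 100 ∧ |(y⁻¹ * g).1 1 1 - 1| < a / 100 ∧ |(y⁻¹ * g).1 0 1| < a / 100 ∧ |(y⁻¹ * g).1 1 0| < a / 100 := by
        have : y⁻¹ * g ∈ B := hg
        rw [hB] at this
        exact this
      have f1 := Int.floor_le (s / (a / 100))
      have f2 := Int.lt_floor_add_one (s / (a / 100))
      have g1 : (⌊s / (a / 100)⌋ : ℝ) * (a / 100) ≤ s := (le_div_iff₀ hpa).1 f1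
      have g2 : s < ((⌊s / (a / 100)⌋ : ℝ) + 1) * (a / 100) := (div_lt_iff₀ hpa).1 f2
      have hs'' : s' = -((⌊s / (a / 100)⌋ : ℝ) * (a / 100)) := by rw [hs']; push_cast; ring
      have t1 : |s + s'| ≤ a / 100 := by
        rw [hs'', abs_le]
        constructor <;> linarith
      have t2 : s' ≤ 4 := by
        rw [hs'']
        linarith
      have t3 : |Real.exp s' * o| ≤ a / 100 := by
        rw [abs_mul, abs_of_pos (Real.exp_pos _)]
        have e1 : Real.exp s' ≤ 81 := by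
          have e2 : Real.exp 4 = Real.exp 1 ^ 4 := by rw [← Real.exp_nat_mul]; norm_num
          have e3 : Real.exp 1 ≤ 3 := by linarith [Real.exp_one_lt_d9]
          calc Real.exp s' ≤ Real.exp 4 := Real.exp_le_exp.2 t2
            _ = Real.exp 1 ^ 4 := e2
            _ ≤ 3 ^ 4 := pow_le_pow_left₀ (Real.exp_pos _).le e3 4
            _ = 81 := by norm_num
        calc Real.exp s' * |o| ≤ 81 * (a / 10000) := mul_le_mul e1 ho (abs_nonneg _) (by norm_num)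
          _ ≤ a / 100 := by linarith
      exact CHF_box a _ _ _ hapos ha100 t1 t3 hg'.1.le hg'.2.1.le hg'.2.2.1.le hg'.2.2.2.le

end

end Pool.Agent.FS
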